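import Mathlib
import Pool.Agent.H32.Tight.Many
import Pool.Agent.H32.Tight.Two

/-!
# Connected graphs of every chromatic number at least three with a bounded number of copies just
above the extremal number
-/

namespace Pool.Agent.Results.MP_ebbdc0_co.ConnectedBounded

open SimpleGraph Filter

/-- `A(n;L)`: the least number of copies of `L` (not necessarily induced subgraphs isomorphic to
`L`) in a graph with `n` vertices and `f(n;L) = ex(n;L)+1` edges. -/
noncomputable def A {W : Type} (n : ℕ) (L : SimpleGraph W) : ℕ :=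
  sInf {a | ∃ G : SimpleGraph (Fin n),
    Nat.card G.edgeSet = extremalNumber n L + 1 ∧ G.copyCount L = a}

theorem aux {W : Type} (L : SimpleGraph W)
    (h : ∃ C N : ℕ, ∀ n, N ≤ n → ∃ G : SimpleGraph (Fin n),
      Nat.card G.edgeSet = extremalNumber n L + 1 ∧ G.copyCount L ≤ C) :
    ∃ C N : ℕ, ∀ n, N ≤ n →
      (∃ G : SimpleGraph (Fin n), Nat.card G.edgeSet = extremalNumber n L + 1 ∧
        G.copyCount L = A n L) ∧ 1 ≤ A n L ∧ A n L ≤ C := by
  classical
  obtain ⟨C, N, h⟩ := h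
  refine ⟨C, N, fun n hn => ?_⟩
  obtain ⟨G, h1, h2⟩ := h n hn
  obtain ⟨G', h3, h4⟩ := Nat.sInf_mem (s := {a | ∃ G : SimpleGraph (Fin n),
    Nat.card G.edgeSet = extremalNumber n L + 1 ∧ G.copyCount L = a}) ⟨_, G, h1, rfl⟩
  refine ⟨⟨G', h3, h4⟩, ?_, ?_⟩
  · change 1 ≤ sInf _
    rw [← h4]
    have h5 : L ⊑ G' := by
      have h6 := IsContained.of_extremalNumber_lt_card_edgeFinset (G := G') (H := L) (by
        rw [Fintype.card_fin, edgeFinset_card, ← Nat.card_eq_fintype_card, h3]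
        exact Nat.lt_succ_self _)
      exact h6
    exact copyCount_pos.2 h5
  · exact le_trans (Nat.sInf_le ⟨G, h1, rfl⟩) h2

/-- For every `r ≥ 3` there is a finite connected graph `L` with chromatic number `r` for which
`A(n;L)` is bounded, so that `A(n;L)` does not tend to infinity. -/
theorem result : ∀ r : ℕ, 3 ≤ r → ∃ (W : Type) (_ : Finite W) (L : SimpleGraph W),
    L.Connected ∧ L.chromaticNumber = r ∧
    (∃ C N : ℕ, ∀ n, N ≤ n →
      (∃ G : SimpleGraph (Fin n), Nat.card G.edgeSet = extremalNumber n L + 1 ∧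
        G.copyCount L = A n L) ∧ 1 ≤ A n L ∧ A n L ≤ C) ∧
    ¬ Tendsto (fun n => A n L) atTop atTop := by
  intro r hr
  have key : ∃ (W : Type) (_ : Finite W) (L : SimpleGraph W),
      L.Connected ∧ L.chromaticNumber = r ∧
      (∃ C N : ℕ, ∀ n, N ≤ n → ∃ G : SimpleGraph (Fin n),
        Nat.card G.edgeSet = extremalNumber n L + 1 ∧ G.copyCount L ≤ C) := by
    rcases Nat.lt_or_ge r 4 with h | h
    · have h3 : r = 3 := by omega
      obtain ⟨L, h1, h2, h4⟩ := Pool.Agent.H32.Tight.Two.two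
      refine ⟨Fin 20, inferInstance, L, h1, ?_, h4⟩
      rw [h2, h3]
      norm_num
    · obtain ⟨s, rfl⟩ : ∃ s, r = s + 1 + 1 := ⟨r - 2, by omega⟩
      obtain ⟨L, h1, h2, h4⟩ := Pool.Agent.H32.Tight.many (r := s) (by omega)
      refine ⟨Pool.Agent.H32.Tight.Vx s, inferInstance, L, h1, ?_, h4⟩
      rw [h2]
      push_cast
      rfl
  obtain ⟨W, hW, L, h1, h2, h3⟩ := key
  have h4 := aux L h3
  refine ⟨W, hW, L, h1, h2, h4, ?_⟩
  intro ht
  obtain ⟨C, N, h5⟩ := h4
  obtain ⟨n, hn1, hn2⟩ := ((tendsto_atTop.1 ht (C + 1)).and (eventually_ge_atTop N)).exists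
  have := (h5 n hn2).2.2
  omega

end Pool.Agent.Results.MP_ebbdc0_co.ConnectedBounded
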